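import Pool.Agent.Helper66.PD.Stmts

/-! Row EXT of project PD (MP_fab4a1_co): a set of pairs without alternating cycles is reversed by
a linear extension. -/

set_option autoImplicit false

namespace Pool.Agent.Helper66.PD

/-- one step of the order to be constructed -/
def extE (P : Type) [PartialOrder P] (S : P → P → Prop) (a b : P) : Prop := a < b ∨ S b a

theorem ext_form {P : Type} [PartialOrder P] {S : P → P → Prop} {a b : P}
    (h : Relation.TransGen (extE P S) a b) :
    a < b ∨ ∃ s t : P × P, S s.1 s.2 ∧ S t.1 t.2 ∧ a ≤ s.2 ∧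
      (s = t ∨ Relation.TransGen (Alt P S) s t) ∧ t.1 ≤ b := by
  induction h with
  | single h =>
    rcases h with h | h
    · exact Or.inl h
    · exact Or.inr ⟨(_, _), (_, _), h, h, le_rfl, Or.inl rfl, le_rfl⟩
  | tail _ h ih =>
    rcases ih with ih | ⟨s, t, hs, ht, h1, h2, h3⟩
    · rcases h with h | h
      · exact Or.inl (ih.trans h)
      · exact Or.inr ⟨(_, _), (_, _), h, h, ih.le, Or.inl rfl, le_rfl⟩
    · rcases h with h | h
      · exact Or.inr ⟨s, t, hs, ht, h1, h2, h3.trans h.le⟩
      · refine Or.inr ⟨s, (_, _), hs, h, h1, Or.inr ?_, le_rfl⟩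
        have h4 : Alt P S t (_, _) := ⟨ht, h, h3⟩
        rcases h2 with rfl | h2
        · exact Relation.TransGen.single h4
        · exact h2.tail h4

theorem st_EXT : ST_EXT := by
  intro P _ _ S _ hS
  classical
  have hirr : ∀ a, ¬ Relation.TransGen (extE P S) a a := by
    intro a h
    rcases ext_form h with h | ⟨s, t, hs, ht, h1, h2, h3⟩
    · exact lt_irrefl _ h
    · have h4 : Alt P S t s := ⟨ht, hs, h3.trans h1⟩
      rcases h2 with rfl | h2
      · exact hS s (Relation.TransGen.single h4)
      · exact hS s (h2.tail h4)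
  have hlt : ∀ a b, extE P S a b →
      (Finset.univ.filter (fun c => Relation.TransGen (extE P S) c a)).card <
      (Finset.univ.filter (fun c => Relation.TransGen (extE P S) c b)).card := by
    intro a b h
    apply Finset.card_lt_card
    rw [Finset.ssubset_iff_of_subset]
    · refine ⟨a, ?_, ?_⟩
      · rw [Finset.mem_filter]
        exact ⟨Finset.mem_univ _, Relation.TransGen.single h⟩
      · rw [Finset.mem_filter]
        exact fun h2 => hirr a h2.2
    · intro c hc
      rw [Finset.mem_filter] at hc ⊢
      exact ⟨hc.1, hc.2.tail h⟩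
  refine ⟨fun a => (Finset.univ.filter (fun c => Relation.TransGen (extE P S) c a)).card, ?_, ?_⟩
  · intro x y hxy
    rcases eq_or_lt_of_le hxy with rfl | hxy
    · exact le_rfl
    · exact (hlt x y (Or.inl hxy)).le
  · intro x y hxy
    exact hlt y x (Or.inr hxy)

end Pool.Agent.Helper66.PD
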